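import Pool.Agent.Work.MP_e487d8_al.Rmat.Lead

/-! MP_e487d8_al, one strand: the affinisation `Aff D M = M[z]` of a module `M` with one strand:
finitely supported sequences, `e` acts coefficientwise, `x 0` acts by `x 0 + z`. (Copy of
`Rmat/Aff.lean`; here the form of the polynomials `Q` does not matter.) -/

set_option autoImplicit false
set_option linter.unusedSectionVars false

namespace Pool.Agent.KLR

variable {K I : Type} [Field K] [Fintype I] [DecidableEq I] {D : Datum K I}

section twz

variable {B : Type*} [Ring B] [Algebra K B]

/-- the one strand action with the dot `x 0 + z` -/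
noncomputable def twz (T : KLRAlg D →ₐ[K] B) (z : B) (hz : ∀ a, z * T a = T a * z) :
    KLRAlg D →ₐ[K] B :=
  liftHom (D := D) (e := fun k i => if k = 0 then T (D.e 0 i) else 0)
    (x := fun k => if k = 0 then T (D.x 0) + z * T (D.E 0) else 0)
    (t := fun _ => 0)
    { ee := by
        intro k i j
        by_cases hk : k = 0
        · simp only [hk, if_true]
          rw [← map_mul, D.e_mul_e]
          split_ifs
          · rfl
          · rw [map_zero]
        · simp [hk]
      ee_comm := by
        intro k l i j
        by_cases hk : k = 0
        · by_cases hl : l = 0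
          · simp only [hk, hl, if_true]
            rw [← map_mul, D.e_comm, map_mul]
          · simp [hl]
        · simp [hk]
      xx := by
        intro k l
        by_cases hk : k = 0
        · by_cases hl : l = 0
          · rw [hk, hl]
          · simp [hl]
        · simp [hk]
      xe := by
        intro k l i
        by_cases hk : k = 0
        · by_cases hl : l = 0
          · simp only [hk, hl, if_true]
            have h1 : Commute (T (D.x 0)) (T (D.e 0 i)) := by
              rw [Commute, SemiconjBy, ← map_mul, ← map_mul, D.x_e]
            have h2 : Commute z (T (D.e 0 i)) := hz _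
            have h3 : Commute (T (D.E 0)) (T (D.e 0 i)) := by
              rw [Commute, SemiconjBy, ← map_mul, ← map_mul, D.E_comm]
            exact (h1.add_left (h2.mul_left h3)).eq
          · simp [hl]
        · simp [hk]
      xE := by
        intro k
        by_cases hk : k = 0
        · simp only [hk, if_true]
          rw [← map_sum]
          change _ * T (D.E 0) = _
          rw [add_mul, mul_assoc, ← map_mul, ← map_mul, D.x_E]
          congr 3
          nth_rw 1 [Datum.E]
          rw [Finset.sum_mul]
          exact Finset.sum_congr rfl fun i _ => D.e_E 0 i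
        · simp [hk]
      tE := by intro k; simp
      tE' := by intro k; simp
      te0 := by intro k i; simp
      te1 := by intro k i; simp
      te := by intro k l i h h'; simp
      tx := by intro k l h h'; simp
      tx0 := by intro k; simp
      tx1 := by intro k; simp
      tt := by intro k; simp
      far := by intro k l h; simp
      braid := by intro k; simp }

variable (T : KLRAlg D →ₐ[K] B) (z : B) (hz : ∀ a, z * T a = T a * z)

theorem twz_e (k : ℕ) (i : I) : twz T z hz (D.e k i) = if k = 0 then T (D.e 0 i) else 0 :=
  liftHom_e _ k i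
theorem twz_x (k : ℕ) : twz T z hz (D.x k) = if k = 0 then T (D.x 0) + z * T (D.E 0) else 0 :=
  liftHom_x _ k
theorem twz_t (k : ℕ) : twz T z hz (D.t k) = 0 := liftHom_t _ k

theorem twz_comm (a : KLRAlg D) : z * twz T z hz a = twz T z hz a * z := by
  induction a using KLRAlg.induction with
  | hs r => rw [AlgHom.commutes]; exact (Algebra.commutes r _).symm
  | he k i =>
    rw [twz_e]
    split_ifs
    · exact hz _
    · rw [mul_zero, zero_mul]
  | hx k =>
    rw [twz_x]
    split_ifs
    · rw [mul_add, add_mul, hz (D.x 0), mul_assoc z _ z, ← hz (D.E 0)]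
    · rw [mul_zero, zero_mul]
  | ht k => rw [twz_t, mul_zero, zero_mul]
  | hadd a b ha hb => rw [map_add, mul_add, add_mul, ha, hb]
  | hmul a b ha hb => rw [map_mul, ← mul_assoc, ha, mul_assoc, hb, mul_assoc]

end twz

/-- the affinisation `M[z]` -/
@[nolint unusedArguments]
def Aff (_D : Datum K I) (M : Type) [AddCommGroup M] : Type := ℕ →₀ M

namespace Aff

variable (D) (M : Type) [AddCommGroup M] [Module K M] [Module (KLRAlg D) M]
  [IsScalarTower K (KLRAlg D) M]

noncomputable instance : AddCommGroup (Aff D M) := inferInstanceAs (AddCommGroup (ℕ →₀ M))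
noncomputable instance : Module K (Aff D M) := inferInstanceAs (Module K (ℕ →₀ M))

/-- multiplication by `z` -/
noncomputable def shift : Module.End K (ℕ →₀ M) := Finsupp.lmapDomain M K Nat.succ

/-- the coefficientwise action -/
noncomputable def coe : KLRAlg D →ₐ[K] Module.End K (ℕ →₀ M) := Algebra.lsmul K K (ℕ →₀ M)

theorem shift_coe (a : KLRAlg D) : shift (K := K) M * coe D M a = coe D M a * shift M := by
  ext d u
  simp [shift, coe]

/-- the action on the affinisation -/
noncomputable def act : KLRAlg D →ₐ[K] Module.End K (ℕ →₀ M) :=
  twz (coe D M) (shift M) (shift_coe D M)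

noncomputable instance : Module (KLRAlg D) (Aff D M) :=
  Module.compHom (ℕ →₀ M) (act D M).toRingHom

instance : IsScalarTower K (KLRAlg D) (Aff D M) where
  smul_assoc r a u := by
    change act D M (r • a) u = r • act D M a u
    rw [map_smul]
    rfl

variable {M}

/-- the element `u z^d` -/
noncomputable def sg (d : ℕ) : M →ₗ[K] Aff D M := Finsupp.lsingle d

variable {D}

theorem sg_apply (d : ℕ) (u : M) : sg D d u = (Finsupp.single d u : ℕ →₀ M) := rfl

theorem smul_def (a : KLRAlg D) (w : Aff D M) : a • w = act D M a w := rfl

variable [h1 : IsStrand D 1 M]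

theorem e_sg (k : ℕ) (i : I) (d : ℕ) (u : M) : D.e k i • sg D d u = sg D d (D.e k i • u) := by
  rw [smul_def, act, twz_e]
  by_cases hk : k = 0
  · subst hk
    rw [if_pos rfl]
    refine Eq.trans ?_ (Finsupp.smul_single (D.e 0 i) d u)
    rfl
  · rw [if_neg hk, h1.zero k (by omega), map_zero]
    rfl

theorem t_sg (k : ℕ) (d : ℕ) (u : M) : D.t k • sg D d u = sg D d (D.t k • u) := by
  rw [smul_def, act, twz_t, h1.t_smul_zero (by omega), map_zero]
  rfl

theorem x_sg (k : ℕ) (d : ℕ) (u : M) :
    D.x k • sg D d u = sg D d (D.x k • u) + sg D (d + 1) (D.E k • u) := by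
  rw [smul_def, act, twz_x]
  by_cases hk : k = 0
  · subst hk
    rw [if_pos rfl]
    simp [coe, shift, sg_apply]
    rfl
  · rw [if_neg hk, h1.x_smul_zero (by omega), h1.E_smul_zero (by omega), map_zero, map_zero,
      add_zero]
    rfl

theorem E_sg (k : ℕ) (d : ℕ) (u : M) : D.E k • sg D d u = sg D d (D.E k • u) := by
  rw [Datum.E, Finset.sum_smul, Finset.sum_smul, map_sum]
  exact Finset.sum_congr rfl fun i _ => e_sg k i d u

/-- induction principle -/
theorem ind {P : Aff D M → Prop} (w : Aff D M) (h0 : P 0) (hs : ∀ d u, P (sg D d u))
    (ha : ∀ v w, P v → P w → P (v + w)) : P w := by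
  have h : ∀ w : ℕ →₀ M, P w := by
    intro w
    induction w using Finsupp.induction_linear with
    | zero => exact h0
    | add f g hf hg => exact ha f g hf hg
    | single d u => exact hs d u
  exact h w

theorem isStrand {m : ℕ} (h : IsStrand D m M) : IsStrand D m (Aff D M) where
  one k hk w := by
    induction w using ind with
    | h0 => rw [smul_zero]
    | hs d u => rw [E_sg, h.one k hk]
    | ha v w hv hw => rw [smul_add, hv, hw]
  zero k hk i w := by
    induction w using ind with
    | h0 => rw [smul_zero]
    | hs d u => rw [e_sg, h.zero k hk, map_zero]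
    | ha v w hv hw => rw [smul_add, hv, hw, add_zero]

variable (D M) in
/-- multiplication by `z` -/
noncomputable def Z : Aff D M →ₗ[KLRAlg D] Aff D M where
  toFun w := shift (K := K) M w
  map_add' v w := map_add _ v w
  map_smul' a w := by
    have h := LinearMap.congr_fun (twz_comm (coe D M) (shift M) (shift_coe D M) a) w
    exact h

theorem Z_sg (d : ℕ) (u : M) : Z D M (sg D d u) = sg D (d + 1) u := by
  change shift (K := K) M _ = _
  simp [shift, sg_apply]

variable (D M) in
/-- the constant coefficient -/
noncomputable def ev : Aff D M →ₗ[K] M := Finsupp.lapply 0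

theorem ev_sg_zero (u : M) : ev D M (sg D 0 u) = u := by
  change (Finsupp.single 0 u : ℕ →₀ M) 0 = u
  simp

theorem ev_sg_succ (d : ℕ) (u : M) : ev D M (sg D (d + 1) u) = 0 := by
  change (Finsupp.single (d + 1) u : ℕ →₀ M) 0 = 0
  simp

theorem ev_smul (a : KLRAlg D) (w : Aff D M) : ev D M (a • w) = a • ev D M w := by
  induction a using KLRAlg.induction generalizing w with
  | hs r => rw [algebraMap_smul, algebraMap_smul, map_smul]
  | he k i =>
    induction w using ind with
    | h0 => rw [smul_zero, map_zero, smul_zero]
    | ha v w hv hw => rw [smul_add, map_add, map_add, smul_add, hv, hw]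
    | hs d u =>
      rw [e_sg]
      cases d with
      | zero => rw [ev_sg_zero, ev_sg_zero]
      | succ d => rw [ev_sg_succ, ev_sg_succ, smul_zero]
  | ht k =>
    induction w using ind with
    | h0 => rw [smul_zero, map_zero, smul_zero]
    | ha v w hv hw => rw [smul_add, map_add, map_add, smul_add, hv, hw]
    | hs d u =>
      rw [t_sg]
      cases d with
      | zero => rw [ev_sg_zero, ev_sg_zero]
      | succ d => rw [ev_sg_succ, ev_sg_succ, smul_zero]
  | hx k =>
    induction w using ind with
    | h0 => rw [smul_zero, map_zero, smul_zero]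
    | ha v w hv hw => rw [smul_add, map_add, map_add, smul_add, hv, hw]
    | hs d u =>
      rw [x_sg, map_add, ev_sg_succ, add_zero]
      cases d with
      | zero => rw [ev_sg_zero, ev_sg_zero]
      | succ d => rw [ev_sg_succ, ev_sg_succ, smul_zero]
  | hadd a b ha hb => rw [add_smul, add_smul, map_add, ha, hb]
  | hmul a b ha hb => rw [mul_smul, mul_smul, ha, hb]

variable (D M) in
/-- reduction modulo `z` -/
noncomputable def P : Aff D M →ₗ[KLRAlg D] M where
  toFun w := ev D M w
  map_add' v w := map_add _ v w
  map_smul' a w := ev_smul a w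

theorem P_sg_zero (u : M) : P D M (sg D 0 u) = u := ev_sg_zero u

theorem P_sg_succ (d : ℕ) (u : M) : P D M (sg D (d + 1) u) = 0 := ev_sg_succ d u

theorem isAff {m : ℕ} (h : IsStrand D m M) : IsAff D m (Z D M) (P D M) where
  strand := isStrand h
  red :=
    { inj := Finsupp.mapDomain_injective Nat.succ_injective
      surj := fun u => ⟨sg D 0 u, P_sg_zero u⟩
      ker := by
        apply le_antisymm
        · intro w hw
          have hw0 : (show ℕ →₀ M from w) 0 = 0 := hw
          refine ⟨(Finsupp.comapDomain Nat.succ (show ℕ →₀ M from w)
            Nat.succ_injective.injOn : ℕ →₀ M), ?_⟩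
          change Finsupp.mapDomain Nat.succ _ = (w : ℕ →₀ M)
          ext d
          cases d with
          | zero =>
            rw [Finsupp.mapDomain_of_notMem_range]
            · exact hw0.symm
            · rintro ⟨y, hy⟩
              exact Nat.succ_ne_zero y hy
          | succ d =>
            have h1 := Finsupp.mapDomain_apply Nat.succ_injective
              (Finsupp.comapDomain Nat.succ (show ℕ →₀ M from w) Nat.succ_injective.injOn) d
            exact h1
        · rintro _ ⟨w, rfl⟩
          induction w using ind with
          | h0 => rw [map_zero]; exact Submodule.zero_mem _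
          | hs d u => rw [Z_sg]; exact P_sg_succ d u
          | ha v w hv hw => rw [map_add]; exact Submodule.add_mem _ hv hw }

/-- the lift of a vector killed by the dots -/
theorem x_sg_zero {m : ℕ} (h : IsStrand D m M) {u : M} (hu : ∀ k, D.x k • u = 0) (k : ℕ)
    (hk : k < m) : D.x k • sg D 0 u = Z D M (sg D 0 u) := by
  rw [x_sg, hu, map_zero, zero_add, h.one k hk, Z_sg]

end Aff

end Pool.Agent.KLR
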