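import Pool.Agent.Work.MP_e487d8_al.Mo.R1.LH
import Pool.Agent.Work.MP_e487d8_al.Fin.Crys

/-! MP_e487d8_al, one strand: the crystal of the simple modules, from the R-matrices of `L(i)`. -/

set_option autoImplicit false

open Pool.Agent.E487.Hopf Pool.Agent.Work.MP_e487d8_al

namespace Pool.Agent.KLR

variable {K I : Type} [Field K] [Fintype I] [DecidableEq I] {D : Datum K I}

namespace Sm

variable {Lp : I → ℕ → SMod D} (hC : CFacts D Lp) (hconv : S_conv D)
  {s s' : SMod D → SMod D → ℕ} (hR : RFacts1 D s s') (hL : LFacts D s s')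

include hC in
theorem n_lt (i : I) : (lt Lp i).rep.n = 1 := by
  have h : (lt Lp i).rep.ch [i] ≠ 0 := by rw [ch_rep, lt_apply hC]; simp
  exact (SMod.ch_length _ h).symm

include hC in
theorem dd_lt_self (i : I) : (SMod.dd (lt Lp i).rep (lt Lp i).rep : ℤ) = 0 := by
  rw [dd_lt hC]
  have h7 : pr i (lt Lp i) = 2 := by
    unfold pr
    have h8 : ∀ j, D.A i j * (wt (lt Lp i) j : ℤ) = if i = j then D.A i j else 0 := by
      intro j
      rw [wt_lt hC]
      split_ifs <;> simp
    rw [Finset.sum_congr rfl fun j _ => h8 j, Finset.sum_ite_eq Finset.univ i,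
      if_pos (Finset.mem_univ _), D.diag]
  rw [h7, wt_lt hC, if_pos rfl]
  norm_num

include hC hR in
theorem s_lt_self (i : I) : s (lt Lp i).rep (lt Lp i).rep = 0 := by
  have h1 := hR.le (lt Lp i).rep (lt Lp i).rep (n_lt hC i)
  have h2 := dd_lt_self hC i
  have h3 : SMod.dd (lt Lp i).rep (lt Lp i).rep = 0 := by exact_mod_cast h2
  omega

include hC hR in
theorem s'_lt_self (i : I) : s' (lt Lp i).rep (lt Lp i).rep = 0 := by
  have h1 := hR.le (lt Lp i).rep (lt Lp i).rep (n_lt hC i)
  have h2 := dd_lt_self hC i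
  have h3 : SMod.dd (lt Lp i).rep (lt Lp i).rep = 0 := by exact_mod_cast h2
  omega

include hC hR hL in
/-- `d_i(X) = ε_i(X) + ε*_i(X) - ⟨h_i, wt X⟩` is nonnegative -/
theorem d_nonneg1 (i : I) (X : Sm D) : pr i X ≤ (eps hC i X : ℤ) + epss i X := by
  have h1 := hR.le (lt Lp i).rep X.rep (n_lt hC i)
  have h2 := dd_lt hC i X
  have h3 := s_lt hC hL i X
  have h4 := s'_lt hC hL i X
  have h1' : (s (lt Lp i).rep X.rep : ℤ) + s' (lt Lp i).rep X.rep ≤
    SMod.dd (lt Lp i).rep X.rep := by exact_mod_cast h1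
  have h3' : (s (lt Lp i).rep X.rep : ℤ) + eps hC i X = wt X i := by exact_mod_cast h3
  have h4' : (s' (lt Lp i).rep X.rep : ℤ) + epss i X = wt X i := by exact_mod_cast h4
  linarith

include hR in
/-- the orders at the constituents of `X ∘ L(i)` different from the head -/
theorem s'_of_not_comm (i : I) (X : Sm D) (hnc : ¬ (lt Lp i).rep.Comm X.rep) :
    s' (lt Lp i).rep X.rep < s' (lt Lp i).rep (f hC hconv i X).rep := by
  classical
  have hr := real_lt hC hconv i
  have hn := n_lt hC i
  have hco : co hC hconv (lt Lp i) X (f hC hconv i X) ≠ 0 := by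
    have h5 := mult_ne_of_quo hC (fd_conv hconv (lt Lp i).rep X.rep) (f_quo hC hconv i X)
    rw [cls_rep] at h5
    exact h5
  obtain ⟨H, g, hg, h2, h3⟩ := hR.hd' (lt Lp i).rep X.rep hn hr
  have hfd := fd_conv hconv X.rep (lt Lp i).rep
  have hm : co hC hconv (lt Lp i) X = mult hC (hfd.sub (LinearMap.ker g)) +
      Finsupp.single (cls H) 1 := by
    rw [co_comm]
    exact mult_quo hC hfd g hg
  have hne : f hC hconv i X ≠ cls H := by
    intro he
    have h5 : Quo D (cls H).rep.M (X.rep.conv (lt Lp i).rep) :=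
      quo_congr' (iso_rep hC (ch_rep_cls _)).symm ⟨g, hg⟩
    rw [← he] at h5
    exact hnc (hR.simple _ _ _ hn hr (f_quo hC hconv i X) h5)
  have h5 : mult hC (hfd.sub (LinearMap.ker g)) (f hC hconv i X) ≠ 0 := by
    rw [hm, Finsupp.add_apply, Finsupp.single_apply, if_neg (Ne.symm hne), add_zero] at hco
    exact hco
  have h6 := h3 (f hC hconv i X).rep (subQ_of_mult hC (hfd.sub (LinearMap.ker g)) h5)
  rw [s'_lt_self hC hR, zero_add] at h6
  exact h6

include hR hL in
theorem epss_f_of_not_comm (i : I) (X : Sm D) (hnc : ¬ (lt Lp i).rep.Comm X.rep) :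
    epss i (f hC hconv i X) ≤ epss i X := by
  have h5 := s'_of_not_comm hC hconv hR i X hnc
  have h4 := s'_lt hC hL i X
  have h7 := s'_lt hC hL i (f hC hconv i X)
  have h8 : wt (f hC hconv i X) i = wt X i + 1 := by
    rw [wt_f, Finsupp.add_apply, Finsupp.single_eq_same]
  omega

include hC hconv hR hL in
/-- `L(i) ∘ X` is simple if and only if `d_i(X) = 0` -/
theorem comm_lt_iff (i : I) (X : Sm D) : (lt Lp i).rep.Comm X.rep ↔
    (eps hC i X : ℤ) + epss i X = pr i X := by
  have hr := real_lt hC hconv i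
  have hn := n_lt hC i
  have h2 := dd_lt hC i X
  have h3 := s_lt hC hL i X
  have h4 := s'_lt hC hL i X
  have h3' : (s (lt Lp i).rep X.rep : ℤ) + eps hC i X = wt X i := by exact_mod_cast h3
  have h4' : (s' (lt Lp i).rep X.rep : ℤ) + epss i X = wt X i := by exact_mod_cast h4
  constructor
  · intro hc
    have h1 := hR.comm (lt Lp i).rep X.rep hn hc
    have h1' : (s (lt Lp i).rep X.rep : ℤ) + s' (lt Lp i).rep X.rep =
      SMod.dd (lt Lp i).rep X.rep := by exact_mod_cast h1
    linarith
  · intro he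
    by_contra hnc
    have h5 := s'_of_not_comm hC hconv hR i X hnc
    have hq := f_quo hC hconv i X
    have h6 := hR.sub (lt Lp i).rep (lt Lp i).rep X.rep (f hC hconv i X).rep hn
      (subQ_of_quo hq)
    rw [s_lt_self hC hR, zero_add] at h6
    have h7 := hR.le (lt Lp i).rep (f hC hconv i X).rep hn
    have hco : co hC hconv (lt Lp i) X (f hC hconv i X) ≠ 0 := by
      have h5 := mult_ne_of_quo hC (fd_conv hconv (lt Lp i).rep X.rep) (f_quo hC hconv i X)
      rw [cls_rep] at h5
      exact h5
    have h8 := dd_co hC hconv (lt Lp i) hco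
    have h9 := dd_lt_self hC i
    have h10 : SMod.dd (lt Lp i).rep (lt Lp i).rep = 0 := by exact_mod_cast h9
    have h11 : (s (lt Lp i).rep X.rep : ℤ) + s' (lt Lp i).rep X.rep <
        SMod.dd (lt Lp i).rep X.rep := by
      have : s (lt Lp i).rep X.rep + s' (lt Lp i).rep X.rep < SMod.dd (lt Lp i).rep X.rep := by
        omega
      exact_mod_cast this
    linarith

include hR hL in
theorem epss_f_lt1 (i : I) (X : Sm D) (h : pr i X < (eps hC i X : ℤ) + epss i X) :
    epss i (f hC hconv i X) ≤ epss i X := by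
  refine epss_f_of_not_comm hC hconv hR hL i X fun hc => ?_
  rw [comm_lt_iff hC hconv hR hL i X] at hc
  omega

/-- the crystal -/
noncomputable def crys1 : Span.CrysData I D.A where
  S := Sm D
  one := one D
  wt := wtz
  eps := eps hC
  epss := epss
  f := f hC hconv
  e := e hC hconv
  wt_one := by
    ext j
    rw [wtz_apply, wt_one]
    rfl
  wt_nonneg X := by
    intro j
    rw [wtz_apply]
    exact Int.natCast_nonneg _
  epss_one := epss_one
  wt_f i X := by
    ext j
    rw [Finsupp.add_apply, wtz_apply, wtz_apply, wt_f, Finsupp.add_apply, Span.al,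
      Finsupp.single_apply, Finsupp.single_apply]
    push_cast
    rfl
  f_e i X h := f_e hC hconv h
  eps_f i X := (f_spec hC hconv i X).1
  e_f i X := e_f hC hconv i X
  epss_f i X := by
    have h := epss_f_aux hC hconv i i X
    rwa [if_pos rfl] at h
  epss_f_ne i j X h := by
    have h' := epss_f_aux hC hconv i j X
    rwa [if_neg h, add_zero] at h'
  epss_e i j X h := epss_e hC hconv j h
  d_nonneg i X := by
    rw [pair_wtz]
    exact d_nonneg1 hC hR hL i X
  epss_f_lt i X h := by
    rw [pair_wtz] at h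
    exact epss_f_lt1 hC hconv hR hL i X h

theorem crys1_emax (i : I) (X : Sm D) :
    (crys1 hC hconv hR hL).emax i X = E hC i X := emax_eq hC hconv i _ X rfl

end Sm

end Pool.Agent.KLR
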