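import Pool.Agent.Work.MP_e487d8_al.Fin.Wt
import Pool.Agent.Work.MP_e487d8_al.Mo.R1.Aff

/-! MP_e487d8_al, RMAT block: common eigenvectors, the square of the R-matrix on them. -/

set_option autoImplicit false

namespace Pool.Agent.KLR

variable {K I : Type} [Field K] [Fintype I] [DecidableEq I] {D : Datum K I}

section eig

variable {n : ℕ} {M : Type} [AddCommGroup M] [Module K M] [Module (KLRAlg D) M]
  [IsScalarTower K (KLRAlg D) M]

/-- `u` is a nonzero vector in the word space of `ν`, killed by all dots -/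
structure Eig (D : Datum K I) {M : Type} [AddCommGroup M] [Module (KLRAlg D) M] (ν : List I)
    (u : M) : Prop where
  ne : u ≠ 0
  word : D.eW ν • u = u
  dot : ∀ k, D.x k • u = 0

omit [Module K M] [IsScalarTower K (KLRAlg D) M] in
theorem FdMod.exists_eig_aux (hM : Nilp D M) {ν : List I} {u₀ : M} (h : D.eW ν • u₀ ≠ 0) (N : ℕ) :
    ∃ u : M, u ≠ 0 ∧ D.eW ν • u = u ∧ ∀ k < N, D.x k • u = 0 := by
  induction N with
  | zero =>
    exact ⟨D.eW ν • u₀, h, by rw [← mul_smul, D.eW_idem], fun k hk => absurd hk (Nat.not_lt_zero k)⟩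
  | succ N ih =>
    obtain ⟨u, hu, hw, hx⟩ := ih
    obtain ⟨p, hp⟩ := hM N
    classical
    have hex : ∃ p, D.x N ^ p • u = 0 := ⟨p, hp u⟩
    have h1 := Nat.find_spec hex
    have h2 : Nat.find hex ≠ 0 := by
      intro h3
      rw [h3, pow_zero, one_smul] at h1
      exact hu h1
    obtain ⟨r, hr⟩ := Nat.exists_eq_succ_of_ne_zero h2
    rw [hr] at h1
    have h3 : D.x N ^ r • u ≠ 0 := Nat.find_min hex (by omega)
    have hc : ∀ a : KLRAlg D, Commute (D.x N) a → a • D.x N ^ r • u = D.x N ^ r • a • u := by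
      intro a ha
      rw [← mul_smul, ← mul_smul, (ha.pow_left r).eq]
    refine ⟨D.x N ^ r • u, h3, ?_, ?_⟩
    · rw [hc _ (D.x_eW N ν), hw]
    · intro k hk
      rcases Nat.lt_succ_iff_lt_or_eq.1 hk with hk | rfl
      · rw [hc _ (D.x_comm N k), hx k hk, smul_zero]
      · rw [← mul_smul, ← pow_succ']
        exact h1

/-- a common eigenvector in a given word space -/
theorem FdMod.exists_eig (hM : FdMod D n M) {ν : List I} (h : chr D n M ν ≠ 0) :
    ∃ u : M, Eig D ν u := by
  have := hM.fd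
  obtain ⟨u₀, hu₀⟩ := (chr_ne_zero_iff (chr_length h)).1 h
  obtain ⟨u, h1, h2, h3⟩ := FdMod.exists_eig_aux hM.nilp hu₀ n
  refine ⟨u, h1, h2, fun k => ?_⟩
  by_cases hk : k < n
  · exact h3 k hk
  · exact hM.strand.x_smul_zero (by omega) u

end eig

/-! ### the products `QP` on eigenvectors -/

/-- the degree of `QQ` -/
def Datum.qq (D : Datum K I) (i j : I) : ℕ := if i = j then 0 else D.q i j

/-- the degree of `QP` -/
def Datum.qL (D : Datum K I) (ν μ : List I) : ℕ :=
  (μ.map fun j => (ν.map fun i => D.qq i j).sum).sum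

theorem Datum.qL_cons (D : Datum K I) (ν μ : List I) (j : I) :
    D.qL ν (j :: μ) = (ν.map fun i => D.qq i j).sum + D.qL ν μ := by
  rw [Datum.qL, List.map_cons, List.sum_cons]
  rfl

theorem sum_map_eq_count (f : I → ℕ) (ν : List I) :
    (ν.map f).sum = ∑ i, ν.count i * f i := by
  induction ν with
  | nil => simp
  | cons a ν ih =>
    rw [List.map_cons, List.sum_cons, ih]
    have h : ∀ i, (a :: ν).count i * f i = ν.count i * f i + if i = a then f i else 0 := by
      intro i
      by_cases h : i = a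
      · subst h
        rw [List.count_cons_self, if_pos rfl, add_mul, one_mul]
      · rw [List.count_cons_of_ne (fun h' => h h'.symm), if_neg h, add_zero]
    rw [Finset.sum_congr rfl fun i _ => h i, Finset.sum_add_distrib, Finset.sum_ite_eq' _ a,
      if_pos (Finset.mem_univ a), add_comm]

theorem Datum.qL_eq (D : Datum K I) (ν μ : List I) :
    D.qL ν μ = ∑ i, ∑ j, if i = j then 0 else D.q i j * ν.count i * μ.count j := by
  rw [Datum.qL, sum_map_eq_count, Finset.sum_comm]
  refine Finset.sum_congr rfl fun j _ => ?_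
  rw [sum_map_eq_count, Finset.mul_sum]
  refine Finset.sum_congr rfl fun i _ => ?_
  rw [Datum.qq]
  split_ifs with h
  · rw [mul_zero, mul_zero]
  · ring

section vec

variable {P : Type} [AddCommGroup P] [Module K P] [Module (KLRAlg D) P]
  [IsScalarTower K (KLRAlg D) P]

omit [Module K P] [IsScalarTower K (KLRAlg D) P] in
theorem pow_apply_smul (Z : P →ₗ[KLRAlg D] P) (s : ℕ) (a : KLRAlg D) (v : P) :
    a • (Z ^ s) v = (Z ^ s) (a • v) := (map_smul _ _ _).symm

theorem QQ_vec (Z : P →ₗ[KLRAlg D] P) {v : P} {k l : ℕ} {i j : I} (hi : Col D k i v)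
    (hj : Col D l j v) (hx : D.x k • v = Z v) (hl : D.x l • v = 0) :
    ∃ c : K, c ≠ 0 ∧ D.QQ k l • v = c • (Z ^ D.qq i j) v := by
  by_cases hij : i = j
  · subst hij
    refine ⟨1, one_ne_zero, ?_⟩
    rw [QQ_eq hi hj, Datum.qq, if_pos rfl, pow_zero, one_smul]
    rfl
  · refine ⟨D.c i j, D.c_ne i j hij, ?_⟩
    rw [QQ_ne hi hj hij, Datum.qq, if_neg hij, smul_assoc]
    congr 1
    have h : ∀ s : ℕ, (D.x k - D.x l) ^ s • v = (Z ^ s) v := by
      intro s
      induction s with
      | zero => rw [pow_zero, pow_zero, one_smul]; rfl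
      | succ s ih =>
        have h1 : D.x k • (Z ^ s) v = (Z ^ s) (Z v) := by rw [pow_apply_smul, hx]
        have h2 : D.x l • (Z ^ s) v = 0 := by rw [pow_apply_smul, hl, map_zero]
        rw [pow_succ', mul_smul, ih, sub_smul, h1, h2, sub_zero, pow_succ]
        rfl
    exact h _

theorem QP1_vec (Z : P →ₗ[KLRAlg D] P) {v : P} {l : ℕ} {j : I} (hj : Col D l j v)
    (hl : D.x l • v = 0) (ν : List I) (hν : D.eW ν • v = v)
    (hx : ∀ k < ν.length, D.x k • v = Z v) :
    ∃ c : K, c ≠ 0 ∧ D.QP1 l ν.length • v = c • (Z ^ (ν.map fun i => D.qq i j).sum) v := by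
  induction ν using List.reverseRecOn with
  | nil =>
    refine ⟨1, one_ne_zero, ?_⟩
    rw [List.length_nil, Datum.QP1, List.map_nil, List.sum_nil, pow_zero, one_smul, one_smul]
    rfl
  | append_singleton ν i ih =>
    rw [D.eW_snoc] at hν
    have h1 : Col D ν.length i v := by
      rw [Col]
      conv_lhs => rw [← hν]
      rw [← mul_smul, ← mul_assoc, D.e_eW, mul_assoc, D.e_idem]
      exact hν
    have h2 : D.eW ν • v = v := by
      conv_lhs => rw [← hν]
      rw [← mul_smul, ← mul_assoc, D.eW_idem]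
      exact hν
    have hlen : (ν ++ [i]).length = ν.length + 1 := by
      rw [List.length_append]; rfl
    rw [hlen] at hx ⊢
    obtain ⟨c, hc, h3⟩ := ih h2 (fun k hk => hx k (by omega))
    obtain ⟨c', hc', h4⟩ := QQ_vec Z h1 hj (hx ν.length (by omega)) hl
    refine ⟨c * c', mul_ne_zero hc hc', ?_⟩
    rw [Datum.QP1, mul_smul, h3, smul_comm, pow_apply_smul, h4, ← algebraMap_smul (KLRAlg D) c',
      map_smul, algebraMap_smul, smul_smul, List.map_append, List.sum_append, List.map_singleton,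
      List.sum_singleton, pow_add]
    rfl

theorem QP_vec (Z : P →ₗ[KLRAlg D] P) {v : P} (ν : List I) (hν : D.eW ν • v = v)
    (hx : ∀ k < ν.length, D.x k • v = Z v) (μ : List I) (p : ℕ)
    (hμ : D.shn p (D.eW μ) • v = v) (hl : ∀ l, p ≤ l → D.x l • v = 0) :
    ∃ c : K, c ≠ 0 ∧ D.QP ν.length p μ.length • v = c • (Z ^ D.qL ν μ) v := by
  induction μ generalizing p with
  | nil =>
    refine ⟨1, one_ne_zero, ?_⟩
    rw [List.length_nil, Datum.QP, Datum.qL, List.map_nil, List.sum_nil, pow_zero, one_smul,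
      one_smul]
    rfl
  | cons j μ ih =>
    rw [D.eW_cons, map_mul, D.shn_e, add_zero, D.shn_shn] at hμ
    have h1 : Col D p j v := by
      rw [Col]
      conv_lhs => rw [← hμ]
      rw [← mul_smul, ← mul_assoc, D.e_idem]
      exact hμ
    have hcm : D.e p j * D.shn (p + 1) (D.eW μ) = D.shn (p + 1) (D.eW μ) * D.e p j := by
      have h := D.tr_mul_shn (le_refl (p + 1)) (D.e p j) (D.eW μ)
      rwa [D.tr_e, if_pos (Nat.lt_succ_self p)] at h
    have h2 : D.shn (p + 1) (D.eW μ) • v = v := by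
      rw [hcm] at hμ
      conv_lhs => rw [← hμ]
      rw [← mul_smul, ← mul_assoc, ← map_mul, D.eW_idem]
      exact hμ
    obtain ⟨c, hc, h3⟩ := ih (p + 1) h2 (fun l hl' => hl l (by omega))
    obtain ⟨c', hc', h4⟩ := QP1_vec Z h1 (hl p le_rfl) ν hν hx
    refine ⟨c * c', mul_ne_zero hc hc', ?_⟩
    rw [List.length_cons, Datum.QP, mul_smul, h3, smul_comm, pow_apply_smul, h4,
      ← algebraMap_smul (KLRAlg D) c', map_smul, algebraMap_smul, smul_smul, D.qL_cons,
      add_comm, pow_add]
    rfl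

end vec

/-- `dd` by words -/
theorem SMod.dd_eq (C X : SMod D) {ν μ : List I} (h : C.ch ν ≠ 0) (h' : X.ch μ ≠ 0) :
    SMod.dd C X = D.qL ν μ := by
  rw [Datum.qL_eq, SMod.dd]
  refine Finset.sum_congr rfl fun i _ => Finset.sum_congr rfl fun j _ => ?_
  rw [C.count_eq_wt h, X.count_eq_wt h']

end Pool.Agent.KLR
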