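import Pool.Agent.Work.MP_e487d8_al.Mo.R1.RH
import Pool.Agent.Work.MP_e487d8_al.Fin.Mir

/-! MP_e487d8_al, one strand: the contract `RFacts1`. -/

set_option autoImplicit false

namespace Pool.Agent.KLR

variable {K I : Type} [Field K] [Fintype I] [DecidableEq I] {D : Datum K I}

namespace SMod

instance fact_mir (C : SMod D) [h : Fact (C.n = 1)] : Fact (C.mir.n = 1) := ⟨h.out⟩

/-- the order of the R-matrix `X ∘ C_z → C_z ∘ X` -/
noncomputable def sOrd' (C X : SMod D) : ℕ := sOrd C.mir X.mir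

theorem comm_symm (hb : S_basis D) {C X : SMod D} [Fact (C.n = 1)] (h : C.Comm X) : X.Comm C := by
  obtain ⟨r, _, hr⟩ := sOrd_spec hb C X
  have h1 : IsSimpleModule (KLRAlg D) (C.conv X) := h
  exact simple_of_equiv (LinearEquiv.ofBijective r (equiv_of_comm hb h hr)) h1

theorem order_sum' (hb : S_basis D) (C X : SMod D) [Fact (C.n = 1)] :
    sOrd C X + sOrd' C X ≤ SMod.dd C X ∧ (C.Comm X → sOrd C X + sOrd' C X = SMod.dd C X) := by
  obtain ⟨r₁, hr₁, h1⟩ := sOrd_spec hb C.mir X.mir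
  exact order_sum hb C X (sOrd_spec hb C X) r₁ hr₁ h1

theorem rf_hd' (hb : S_basis D) (C X : SMod D) [Fact (C.n = 1)] (hC : C.Real) :
    ∃ (H : SMod D) (f : X.conv C →ₗ[KLRAlg D] H.M),
    Function.Surjective f ∧ sOrd' C H = sOrd' C C + sOrd' C X ∧
    ∀ Z : SMod D, SubQ D Z.M (LinearMap.ker f) → sOrd' C C + sOrd' C X < sOrd' C Z := by
  obtain ⟨H, f, hf, h1, h2⟩ := rf_hd hb C.mir X.mir (real_mir hC)
  obtain ⟨g, hg, h3⟩ := exists_mir_hom (X := X) (Y := C) (H := H) f hf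
  refine ⟨H.mir, g, hg, ?_, fun Z hZ => h2 Z.mir (h3 Z hZ)⟩
  have h4 : sOrd C.mir H = sOrd C.mir H.mir.mir := sOrd_iso hb C.mir H.mir_mir
  exact h4.symm.trans h1

end SMod

/-- RMAT for one strand: `s C X` = order of vanishing of the R-matrix `C_z ∘ X → X ∘ C_z`,
`s' C X` = order of vanishing of the R-matrix `X ∘ C_z → C_z ∘ X`, `C` with one strand -/
structure RFacts1 (D : Datum K I) (s s' : SMod D → SMod D → ℕ) : Prop where
  le : ∀ C X : SMod D, C.n = 1 → s C X + s' C X ≤ SMod.dd C X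
  comm : ∀ C X : SMod D, C.n = 1 → C.Comm X → s C X + s' C X = SMod.dd C X
  sub : ∀ C X Y Z : SMod D, C.n = 1 → SubQ D Z.M (X.conv Y) → s C X + s C Y ≤ s C Z
  sub' : ∀ C X Y Z : SMod D, C.n = 1 → SubQ D Z.M (X.conv Y) → s' C X + s' C Y ≤ s' C Z
  eq : ∀ C X Y Z : SMod D, C.n = 1 → Nonempty (X.conv Y ≃ₗ[KLRAlg D] Z.M) →
    s C Z = s C X + s C Y
  eq' : ∀ C X Y Z : SMod D, C.n = 1 → Nonempty (X.conv Y ≃ₗ[KLRAlg D] Z.M) →
    s' C Z = s' C X + s' C Y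
  hd : ∀ C X : SMod D, C.n = 1 → C.Real → ∃ (H : SMod D) (f : C.conv X →ₗ[KLRAlg D] H.M),
    Function.Surjective f ∧ s C H = s C C + s C X ∧
    ∀ Z : SMod D, SubQ D Z.M (LinearMap.ker f) → s C C + s C X < s C Z
  hd' : ∀ C X : SMod D, C.n = 1 → C.Real → ∃ (H : SMod D) (f : X.conv C →ₗ[KLRAlg D] H.M),
    Function.Surjective f ∧ s' C H = s' C C + s' C X ∧
    ∀ Z : SMod D, SubQ D Z.M (LinearMap.ker f) → s' C C + s' C X < s' C Z
  hd_iso : ∀ C X Z Z' : SMod D, C.n = 1 → C.Real → Quo D Z.M (C.conv X) →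
    Quo D Z'.M (C.conv X) → Z.Iso Z'
  hd_iso' : ∀ C X Z Z' : SMod D, C.n = 1 → C.Real → Quo D Z.M (X.conv C) →
    Quo D Z'.M (X.conv C) → Z.Iso Z'
  simple : ∀ C X H : SMod D, C.n = 1 → C.Real → Quo D H.M (C.conv X) → Quo D H.M (X.conv C) →
    C.Comm X

/-- the contract of the RMAT block for one strand -/
theorem rFacts1 (hb : S_basis D) : RFacts1 D (sOrd (D := D)) SMod.sOrd' where
  le C X h1 := by
    have : Fact (C.n = 1) := ⟨h1⟩
    exact (SMod.order_sum' hb C X).1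
  comm C X h1 h := by
    have : Fact (C.n = 1) := ⟨h1⟩
    exact (SMod.order_sum' hb C X).2 h
  sub C X Y Z h1 h := by
    have : Fact (C.n = 1) := ⟨h1⟩
    exact SMod.sOrd_sub hb C X Y Z h
  sub' C X Y Z h1 h := by
    have : Fact (C.n = 1) := ⟨h1⟩
    rw [Nat.add_comm]
    exact SMod.sOrd_sub hb C.mir Y.mir X.mir Z.mir (SMod.subQ_conv_mir h)
  eq C X Y Z h1 h := by
    have : Fact (C.n = 1) := ⟨h1⟩
    exact h.elim fun f => SMod.sOrd_conv hb C X Y Z f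
  eq' C X Y Z h1 h := by
    have : Fact (C.n = 1) := ⟨h1⟩
    rw [Nat.add_comm (SMod.sOrd' C X)]
    exact (SMod.iso_conv_mir h).elim fun f => SMod.sOrd_conv hb C.mir Y.mir X.mir Z.mir f
  hd C X h1 hC := by
    have : Fact (C.n = 1) := ⟨h1⟩
    exact SMod.rf_hd hb C X hC
  hd' C X h1 hC := by
    have : Fact (C.n = 1) := ⟨h1⟩
    exact SMod.rf_hd' hb C X hC
  hd_iso C X Z Z' h1 hC h h' := by
    have : Fact (C.n = 1) := ⟨h1⟩
    exact SMod.rf_hd_iso hb C X Z Z' hC h h'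
  hd_iso' C X Z Z' h1 hC h h' := by
    have : Fact (C.n = 1) := ⟨h1⟩
    exact SMod.iso_mir_iff.1
      (SMod.rf_hd_iso hb C.mir X.mir Z.mir Z'.mir (SMod.real_mir hC) (SMod.quo_conv_mir h)
        (SMod.quo_conv_mir h'))
  simple C X H h1 hC h h' := by
    have : Fact (C.n = 1) := ⟨h1⟩
    exact SMod.rf_simple hb C X H hC h h'

end Pool.Agent.KLR
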