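import Pool.Agent.Work.MP_e487d8_al.Mo.R1.LF
import Pool.Agent.Work.MP_e487d8_al.Mo.R1.RG
import Pool.Agent.Work.MP_e487d8_al.Cry.Facts
import Pool.Agent.Work.MP_e487d8_al.Fin.Crys
import Pool.Agent.Work.MP_e487d8_al.Mod.Fd

/-! MP_e487d8_al, RMAT block: `s(L(i), X) = wt_i(X) - ε_i(X)`. -/

set_option autoImplicit false

namespace Pool.Agent.KLR

variable {K I : Type} [Field K] [Fintype I] [DecidableEq I] {D : Datum K I}

/-- `S_conv` from the basis theorem -/
theorem sConv (hb : S_basis D) : S_conv D :=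
  fun _ _ _ _ _ _ _ _ _ _ _ _ hM hN => Conv.fdMod_chrQ hb hM hN

namespace OneM

variable {i : I} {C : SMod D} (h : OneM D i C)

include h

theorem ch_eq (ν : List I) : C.ch ν = if ν = [i] then 1 else 0 := by
  have hs := C.smp.simple
  have h1 : C.ch [i] = 1 := by
    have h2 : ([i] : List I).length = C.n := by rw [h.n]; rfl
    rw [SMod.ch, chr_eq h2]
    have h3 : wordSp D C.M [i] = ⊤ := by
      rw [eq_top_iff]
      intro u _
      rw [mem_wordSp, D.eW_cons, D.eW_nil, map_one, mul_one, h.e]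
    rw [h3, finrank_top]
    obtain ⟨u, hu⟩ := exists_ne (0 : C.M)
    refine finrank_eq_one u hu fun w => ?_
    obtain ⟨c, hc⟩ := h.prop hu w
    exact ⟨c, hc.symm⟩
  split_ifs with h2
  · rw [h2, h1]
  · by_contra h3
    have h4 := C.ch_perm h3 (by rw [h1]; exact one_ne_zero : C.ch [i] ≠ 0)
    rw [List.perm_singleton] at h4
    exact h2 h4

variable {Lp : I → ℕ → SMod D} (hC : CFacts D Lp)

include hC in
theorem ch_lt : C.ch = (Sm.lt Lp i).rep.ch := by
  funext ν
  rw [h.ch_eq, Sm.ch_rep, Sm.lt_apply hC]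

include hC in
theorem real (hconv : S_conv D) : C.Real := by
  have h1 := (Sm.comm_iff hC hconv _ _).1 (Sm.real_lt hC hconv i)
  have h2 : C.chq = (Sm.lt Lp i).rep.chq := by
    funext w
    show (C.ch w : ℚ) = ((Sm.lt Lp i).rep.ch w : ℚ)
    rw [h.ch_lt hC]
  refine (Sm.comm_iff hC hconv C C).2 ?_
  rw [h2]
  exact h1

theorem sOrd_self (hb : S_basis D) : sOrd C C = 0 := by
  have := h.fact
  have hs := C.smp.simple
  refine sOrd_eq hb ⟨LinearMap.id, h.lead_self, ?_⟩
  intro h0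
  obtain ⟨u, hu⟩ := exists_ne (0 : C.M)
  have h1 := LinearMap.congr_fun h0 (Conv.mk D C.n C.M C.M u u)
  rw [LinearMap.id_apply, LinearMap.zero_apply] at h1
  rcases Conv.mk_eq_zero hb C.smp.strand C.smp.strand h1 with h2 | h2 <;> exact hu h2

include hC in
theorem sOrd_add (hb : S_basis D) : ∀ (n : ℕ) (X : Sm D), Sm.eps hC i X = n →
    sOrd C X.rep + n = Sm.wt X i := by
  have := h.fact
  intro n
  induction n with
  | zero =>
    intro X hX
    rw [add_zero, Sm.wt_apply]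
    refine sOrd_eq hb (h.ordEq_base hb X.rep fun ν => ?_)
    rw [Sm.ch_rep]
    exact Sm.ch_zero hC i X (b := 1) (by omega) ν
  | succ n ih =>
    intro X hX
    have hconv := sConv hb
    obtain ⟨h1, _⟩ := Sm.e_spec hC hconv i X
    have hY := ih (Sm.e hC hconv i X) (by omega)
    set Y := Sm.e hC hconv i X with hYd
    have hX' : Sm.f hC hconv i Y = X := Sm.f_e hC hconv (by omega)
    have hq := Sm.f_quo hC hconv i Y
    rw [hX'] at hq
    have hq' : Quo D X.rep.M (C.conv Y.rep) :=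
      SMod.quo_congr (Sm.iso_rep hC (h.ch_lt hC).symm) (SMod.Iso.refl _) (SMod.Iso.refl _) hq
    obtain ⟨H, f, hf, h2, _⟩ := SMod.rf_hd hb C Y.rep (h.real hC hconv)
    have h3 := SMod.rf_hd_iso hb C Y.rep H X.rep (h.real hC hconv) ⟨f, hf⟩ hq'
    have h4 : sOrd C X.rep = sOrd C H := SMod.sOrd_iso hb C h3
    rw [h4, h2, h.sOrd_self hb, ← hX', Sm.wt_f, Finsupp.add_apply, Finsupp.single_eq_same]
    omega

end OneM

/-- `s(L(i), X) = wt_i(X) - ε_i(X)` -/
theorem sOrd_eps (hb : S_basis D) (i : I) (C X : SMod D) (a : ℕ) (μ : List I)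
    (hCi : C.ch [i] ≠ 0) (h1 : X.ch (List.replicate a i ++ μ) ≠ 0)
    (h2 : ∀ ν, X.ch (List.replicate (a + 1) i ++ ν) = 0) : sOrd C X + a = X.wt i := by
  have hC := cFacts hb
  have h := OneM.of_ch hCi
  have := h.fact
  have h3 : Sm.eps hC i (Sm.cls X) = a := by
    apply le_antisymm
    · by_contra h4
      obtain ⟨ν, hν, _⟩ := Sm.exists_eps hC i (Sm.cls X)
      apply hν
      have h5 := h2 (List.replicate (Sm.eps hC i (Sm.cls X) - (a + 1)) i ++ ν)
      rw [← List.append_assoc, ← List.replicate_add,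
        show a + 1 + (Sm.eps hC i (Sm.cls X) - (a + 1)) = Sm.eps hC i (Sm.cls X) by omega] at h5
      exact h5
    · exact Sm.le_eps hC (X := Sm.cls X) h1
  have h4 := h.sOrd_add hC hb a (Sm.cls X) h3
  rw [Sm.wt_apply, SMod.wt_eq_of_ch (Sm.ch_rep_cls X) i,
    ← SMod.sOrd_iso hb C (Sm.iso_rep hC (Sm.ch_rep_cls X))] at h4
  exact h4

end Pool.Agent.KLR
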