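import Pool.Agent.Work.MP_e487d8_al.Mo.R1.Ord
import Pool.Agent.Work.MP_e487d8_al.Fin.JH
import Pool.Agent.Work.MP_e487d8_al.Cry.Facts

/-! MP_e487d8_al, RMAT block: the facts about heads, socles and orders for real modules. -/

set_option autoImplicit false

namespace Pool.Agent.KLR

variable {K I : Type} [Field K] [Fintype I] [DecidableEq I] {D : Datum K I}

section

variable {n : ℕ} {N : Type}
  [AddCommGroup N] [Module K N] [Module (KLRAlg D) N] [IsScalarTower K (KLRAlg D) N]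

omit [Module K N] [IsScalarTower K (KLRAlg D) N] in
theorem strand_surj {N' : Type} [AddCommGroup N'] [Module (KLRAlg D) N'] (hN : IsStrand D n N)
    (f : N →ₗ[KLRAlg D] N') (hf : Function.Surjective f) : IsStrand D n N' where
  one k hk u := by
    obtain ⟨u, rfl⟩ := hf u
    rw [← map_smul, hN.one k hk]
  zero k hk i u := by
    obtain ⟨u, rfl⟩ := hf u
    rw [← map_smul, hN.zero k hk, map_zero]

theorem OrdGe.le_of_quo (hb : S_basis D) {C : SMod D} [Fact (C.n = 1)] {hN : IsStrand D n N} {s : ℕ}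
    (h : OrdGe C hN s) {Z : SMod D} (hz : Quo D Z.M N) : s ≤ sOrd C Z := by
  obtain ⟨f, hf⟩ := hz
  have h1 := strand_surj hN f hf
  have h2 : n = Z.n := strand_unique (M := Z.M) h1 Z.smp.strand
  exact le_sOrd hb ((h.quot hb h1 f hf).cast h2 Z.smp.strand)

theorem OrdGe.le_of_subQ (hb : S_basis D) {C : SMod D} [Fact (C.n = 1)] {hN : IsStrand D n N} {s : ℕ}
    (h : OrdGe C hN s) {Z : SMod D} (hz : SubQ D Z.M N) : s ≤ sOrd C Z := by
  obtain ⟨P, f, hf⟩ := hz
  exact (h.sub hb (hN.sub P) P.subtype P.subtype_injective).le_of_quo hb ⟨f, hf⟩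

theorem OrdEq.sOrd_of_equiv (hb : S_basis D) {C : SMod D} [Fact (C.n = 1)] {hN : IsStrand D n N} {s : ℕ}
    (h : OrdEq C hN s) {Z : SMod D} (f : N ≃ₗ[KLRAlg D] Z.M) : sOrd C Z = s := by
  have h1 := strand_surj hN f.toLinearMap f.surjective
  have h2 : n = Z.n := strand_unique (M := Z.M) h1 Z.smp.strand
  exact sOrd_eq hb ((h.congr hb h1 f).cast h2 Z.smp.strand)

end

namespace SMod

theorem sOrd_iso (hb : S_basis D) (C : SMod D) [Fact (C.n = 1)] {X Y : SMod D} (h : X.Iso Y) :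
    sOrd C Y = sOrd C X := h.elim fun f => (sOrd_spec hb C X).sOrd_of_equiv hb f

theorem fdConv (hb : S_basis D) (X Y : SMod D) : FdMod D (X.n + Y.n) (X.conv Y) :=
  Conv.fdMod hb X.smp.toFdMod Y.smp.toFdMod

theorem nontrivialConv (hb : S_basis D) (X Y : SMod D) : Nontrivial (X.conv Y) := by
  obtain ⟨u, hu⟩ := exists_ne (0 : X.M)
  obtain ⟨v, hv⟩ := exists_ne (0 : Y.M)
  refine ⟨⟨Conv.mk D X.n X.M Y.M u v, 0, fun h => ?_⟩⟩
  rcases Conv.mk_eq_zero hb X.smp.strand Y.smp.strand h with h | h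
  · exact hu h
  · exact hv h

/-- K2 for the convolution product -/
theorem ordEq_conv (hb : S_basis D) (C X Y : SMod D) [Fact (C.n = 1)] :
    OrdEq C (Conv.isStrand X.smp.strand Y.smp.strand) (sOrd C X + sOrd C Y) := by
  obtain ⟨r, hr, h0⟩ := sOrd_spec hb C X
  obtain ⟨r', hr', h0'⟩ := sOrd_spec hb C Y
  exact conv_ne_zero hb C.smp.simple hr hr' h0 h0'

theorem sOrd_sub (hb : S_basis D) (C X Y Z : SMod D) [Fact (C.n = 1)] (h : SubQ D Z.M (X.conv Y)) :
    sOrd C X + sOrd C Y ≤ sOrd C Z := (ordEq_conv hb C X Y).ge.le_of_subQ hb h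

theorem sOrd_conv (hb : S_basis D) (C X Y Z : SMod D) [Fact (C.n = 1)] (f : X.conv Y ≃ₗ[KLRAlg D] Z.M) :
    sOrd C Z = sOrd C X + sOrd C Y := (ordEq_conv hb C X Y).sOrd_of_equiv hb f

/-- `r_(C,C)` is a scalar -/
theorem Real.scal (hb : S_basis D) {C : SMod D} [Fact (C.n = 1)] (hC : C.Real) :
    Scal (Aff.isAff C.smp.strand) (sOrd C C) := by
  obtain ⟨r, hr, h0⟩ := sOrd_spec hb C C
  have hs : Smp D (C.n + C.n) (C.conv C) := { fdConv hb C C with simple := hC }
  obtain ⟨c, hc⟩ := end_scalar hb _ _ hs r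
  refine ⟨c, ?_, r, hr, hc⟩
  rintro rfl
  apply h0
  ext z
  rw [hc, zero_smul, LinearMap.zero_apply]

/-- the simple modules `M` -/
def ofSmp {n : ℕ} {M : Type} [AddCommGroup M] [Module K M] [Module (KLRAlg D) M]
    [IsScalarTower K (KLRAlg D) M] (h : Smp D n M) : SMod D where
  n := n
  M := M
  smp := h

/-- the R-matrix `r : C ∘ X → X ∘ C` for a real module `C`, its image is `H` -/
structure HD (C X : SMod D) (r : C.conv X →ₗ[KLRAlg D] X.conv C) (H : SMod D) : Prop where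
  ne : r ≠ 0
  le_ker : ∀ T : Submodule (KLRAlg D) (C.conv X), T ≠ ⊤ → T ≤ LinearMap.ker r
  range_le : ∀ S : Submodule (KLRAlg D) (X.conv C), S ≠ ⊥ → LinearMap.range r ≤ S
  iso : Nonempty (H.M ≃ₗ[KLRAlg D] LinearMap.range r)
  ord : sOrd C H = sOrd C C + sOrd C X
  big : ∀ Z : SMod D, SubQ D Z.M (LinearMap.ker r) → sOrd C C + sOrd C X < sOrd C Z
  big' : ∀ Z : SMod D, Quo D Z.M (X.conv C ⧸ LinearMap.range r) →
    sOrd C C + sOrd C X < sOrd C Z

/-- the order on the cokernel of `r` -/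
theorem ordGe_coker (hb : S_basis D) {C X : SMod D} [Fact (C.n = 1)] {s₀ s : ℕ}
    (hsc : Scal (Aff.isAff C.smp.strand) s₀) {r : C.conv X →ₗ[KLRAlg D] X.conv C}
    (h : Lead (Aff.isAff C.smp.strand) X.smp.strand s r) :
    OrdGe C ((Conv.isStrand X.smp.strand C.smp.strand).quot (LinearMap.range r)) (s₀ + s + 1) := by
  obtain ⟨lam, hlam, hsc⟩ := hsc
  obtain ⟨ρ, hρ, hρz⟩ := hsc.lead_NC h
  obtain ⟨ρQ, hρQ⟩ := hρ.quot hb
    ((Conv.isStrand X.smp.strand C.smp.strand).quot (LinearMap.range r))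
    (LinearMap.range r).mkQ (LinearMap.range r).mkQ_surjective
  have hnat := Lead.natural hb hρ hρQ (LinearMap.range r).mkQ
  have h0 : ρQ = 0 := by
    have hs := Conv.map_surjective (rfl : C.n = C.n) (LinearMap.id : C.M →ₗ[KLRAlg D] C.M)
      (LinearMap.range r).mkQ (fun v => ⟨v, rfl⟩) (LinearMap.range r).mkQ_surjective
    ext z
    obtain ⟨z, rfl⟩ := hs z
    have h1 := LinearMap.congr_fun hnat z
    rw [LinearMap.comp_apply, LinearMap.comp_apply, hρz, ← algebraMap_smul (KLRAlg D) lam,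
      map_smul, Conv.map_map] at h1
    have h2 : (LinearMap.range r).mkQ ∘ₗ r = 0 := by
      ext y
      rw [LinearMap.comp_apply, Submodule.mkQ_apply, LinearMap.zero_apply,
        Submodule.Quotient.mk_eq_zero]
      exact ⟨y, rfl⟩
    have h3 : ∀ y : Conv D (C.n + X.n) (C.conv X) C.M,
        Conv.map ((Nat.add_comm C.n X.n).trans rfl) ((LinearMap.range r).mkQ ∘ₗ r)
        (LinearMap.id ∘ₗ LinearMap.id : C.M →ₗ[KLRAlg D] C.M) y = 0 := by
      intro y
      rw [h2]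
      have h4 : Conv.map ((Nat.add_comm C.n X.n).trans rfl)
          (0 : C.conv X →ₗ[KLRAlg D] (X.conv C ⧸ LinearMap.range r))
          (LinearMap.id ∘ₗ LinearMap.id : C.M →ₗ[KLRAlg D] C.M) = 0 := by
        apply Conv.hom_ext
        intro u v
        rw [Conv.map_mk, LinearMap.zero_apply, LinearMap.zero_apply, map_zero,
          LinearMap.zero_apply]
      rw [h4, LinearMap.zero_apply]
    rw [h3, smul_zero] at h1
    rw [← h1, LinearMap.zero_apply]
  rw [h0, Nat.add_comm s s₀] at hρQ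
  exact hρQ.succ hb

theorem exists_HD (hb : S_basis D) (C X : SMod D) [Fact (C.n = 1)] (hC : C.Real) : ∃ r H, HD C X r H := by
  obtain ⟨r, hr, h0⟩ := sOrd_spec hb C X
  have hsc := hC.scal hb
  have hfd : FdMod D (C.n + X.n) (X.conv C) := by
    rw [Nat.add_comm]
    exact fdConv hb X C
  have hs : Smp D (C.n + X.n) (LinearMap.range r) :=
    { hfd.sub (LinearMap.range r) with simple := range_simple hb X.smp.simple hsc hr h0 }
  refine ⟨r, ofSmp hs, h0, fun T hT => le_ker hb X.smp.simple hsc hr T hT,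
    fun S hS => range_le hb X.smp.simple hsc hr S hS, ⟨LinearEquiv.refl _ _⟩, ?_, ?_, ?_⟩
  · apply sOrd_eq hb
    exact lead_range hb X.smp.simple hsc hr h0 rfl hs.strand r.rangeRestrict
      r.surjective_rangeRestrict (by rw [LinearMap.ker_rangeRestrict])
  · intro Z hZ
    have h1 : OrdGe C ((Conv.isStrand C.smp.strand X.smp.strand).sub (LinearMap.ker r))
      (sOrd C C + sOrd C X + 1) := lead_ker hb hsc hr
    exact h1.le_of_subQ hb hZ
  · intro Z hZ
    exact (ordGe_coker hb hsc hr).le_of_quo hb hZ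

namespace HD

variable {C X : SMod D} {r : C.conv X →ₗ[KLRAlg D] X.conv C} {H : SMod D}

theorem ker_ne (h : HD C X r H) : LinearMap.ker r ≠ ⊤ := fun h0 => h.ne (LinearMap.ker_eq_top.1 h0)

theorem range_ne (h : HD C X r H) : LinearMap.range r ≠ ⊥ :=
  fun h0 => h.ne (LinearMap.range_eq_bot.1 h0)

/-- every simple quotient of `C ∘ X` is isomorphic to `H` -/
theorem ker_eq (h : HD C X r H) {Z : Type} [AddCommGroup Z] [Module (KLRAlg D) Z]
    [IsSimpleModule (KLRAlg D) Z] (f : C.conv X →ₗ[KLRAlg D] Z) (hf : Function.Surjective f) :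
    LinearMap.ker f = LinearMap.ker r := by
  have hne : Nontrivial Z := IsSimpleModule.nontrivial (KLRAlg D) Z
  have h1 : LinearMap.ker f ≠ ⊤ := by
    intro h0
    obtain ⟨z, hz⟩ := exists_ne (0 : Z)
    obtain ⟨y, rfl⟩ := hf z
    rw [LinearMap.ker_eq_top.1 h0] at hz
    exact hz rfl
  have h2 := h.le_ker _ h1
  have h3 : IsCoatom (LinearMap.ker f) := LinearMap.isCoatom_ker_of_surjective hf
  rcases h3.le_iff.1 h2 with h4 | h4
  · exact absurd h4 h.ker_ne
  · exact h4.symm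

theorem iso_of_quo (h : HD C X r H) {Z : SMod D} (hZ : Quo D Z.M (C.conv X)) : Z.Iso H := by
  obtain ⟨f, hf⟩ := hZ
  obtain ⟨g⟩ := h.iso
  have h1 := h.ker_eq f hf
  exact ⟨(LinearMap.quotKerEquivOfSurjective f hf).symm.trans
    ((Submodule.quotEquivOfEq _ _ h1).trans ((LinearMap.quotKerEquivRange r).trans g.symm))⟩

theorem quo (h : HD C X r H) : Quo D H.M (C.conv X) := by
  obtain ⟨g⟩ := h.iso
  refine ⟨g.symm.toLinearMap ∘ₗ r.rangeRestrict, ?_⟩
  rw [LinearMap.coe_comp]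
  exact g.symm.surjective.comp r.surjective_rangeRestrict

end HD

end SMod

end Pool.Agent.KLR
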