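import Pool.Agent.Work.MP_e487d8_al.Grad.Rdeg
import Pool.Agent.Work.MP_e487d8_al.Grad.Able
import Pool.Agent.Work.MP_e487d8_al.Mo.R1.LF

/-! MP_e487d8_al, one strand: the grading of the affinisation of a module with one strand. -/

set_option autoImplicit false
set_option linter.unusedSectionVars false

namespace Pool.Agent.KLR

variable {K I : Type} [Field K] [Fintype I] [DecidableEq I] {D : Datum K I}

/-- the degree of the dot of colour `j` -/
def Datum.xdeg (_D : Datum K I) (_j : I) : ℤ := 2

namespace Aff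

variable {M N : Type} [AddCommGroup M] [Module K M] [Module (KLRAlg D) M]
  [IsScalarTower K (KLRAlg D) M] [AddCommGroup N] [Module K N]

/-- linear maps out of the affinisation -/
noncomputable def liftA (g : ℕ → M →ₗ[K] N) : Aff D M →ₗ[K] N :=
  (Finsupp.lsum K g : (ℕ →₀ M) →ₗ[K] N)

theorem liftA_sg (g : ℕ → M →ₗ[K] N) (d : ℕ) (u : M) : liftA (D := D) g (sg D d u) = g d u := by
  change (Finsupp.lsum K g : (ℕ →₀ M) →ₗ[K] N) (Finsupp.single d u) = _
  simp

/-- the coefficients -/
noncomputable def cf (D : Datum K I) {M : Type} [AddCommGroup M] [Module K M] (d : ℕ) :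
    Aff D M →ₗ[K] M := (Finsupp.lapply d : (ℕ →₀ M) →ₗ[K] M)

theorem cf_sg (d d' : ℕ) (u : M) : cf D d (sg D d' u) = if d' = d then u else 0 := by
  change (Finsupp.single d' u : ℕ →₀ M) d = _
  rw [Finsupp.single_apply]

theorem ext_cf {y z : Aff D M} (h : ∀ d, cf D d y = cf D d z) : y = z := Finsupp.ext h

variable [h1 : IsStrand D 1 M]

theorem cf_e (d : ℕ) (k : ℕ) (i : I) (w : Aff D M) :
    cf D d (D.e k i • w) = D.e k i • cf D d w := by
  induction w using ind with
  | h0 => rw [smul_zero, map_zero, smul_zero]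
  | ha v w hv hw => rw [smul_add, map_add, map_add, smul_add, hv, hw]
  | hs d' u =>
    rw [e_sg, cf_sg, cf_sg]
    split_ifs
    · rfl
    · rw [smul_zero]

theorem cf_eW (d : ℕ) (ν : List I) (k : ℕ) (w : Aff D M) :
    cf D d (D.shn k (D.eW ν) • w) = D.shn k (D.eW ν) • cf D d w := by
  induction ν generalizing k w with
  | nil => rw [D.eW_nil, map_one, one_smul, one_smul]
  | cons i ν ih =>
    rw [D.eW_cons, map_mul, D.shn_shn, D.shn_e, mul_smul, mul_smul, cf_e, ih]

theorem t_ee_sg (k : ℕ) (i j : I) (d : ℕ) (u : M) :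
    (D.t k * (D.e k i * D.e (k + 1) j)) • sg D d u =
      sg D d ((D.t k * (D.e k i * D.e (k + 1) j)) • u) := by
  rw [mul_smul, mul_smul, e_sg, e_sg, t_sg, mul_smul, mul_smul]

/-- the weight of the affinisation -/
theorem wtOf {n : ℕ} {β : I → ℕ} (h : WtOf D n M β) : WtOf D n (Aff D M) β := by
  intro ν w hν hw hne
  rw [wdAt_zero_iff] at hw
  obtain ⟨d, hd⟩ : ∃ d, cf D d w ≠ 0 := by
    by_contra hall
    push Not at hall
    exact hne (ext_cf fun d => by rw [hall d, map_zero])
  refine h ν (cf D d w) hν ?_ hd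
  rw [wdAt_zero_iff]
  have h1 := cf_eW d ν 0 w
  rwa [D.shn_zero, hw, eq_comm] at h1

variable (j : I)

/-- the grading of the affinisation, as a linear map -/
noncomputable def rhoK (g : Grd D M) : Aff D M →ₗ[K] Lau D (Aff D M) :=
  liftA fun k => (Lau.lift D fun d => (Lau.sg D (d + D.xdeg j * k)).comp (sg D k)).comp
    (Conv.toK g.rho)

omit h1 in
theorem rhoK_sg {g : Grd D M} {p : ℤ} {u : M} (h : g.Hm p u) (k : ℕ) :
    rhoK j g (sg D k u) = Lau.sg D (p + D.xdeg j * k) (sg D k u) := by
  unfold rhoK
  rw [liftA_sg, LinearMap.comp_apply, Conv.toK_apply, h, Lau.lift_sg]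
  rfl

theorem ind_hm (g : Grd D M) {P : Aff D M → Prop} (w : Aff D M) (h0 : P 0)
    (hs : ∀ d p u, g.Hm p u → P (sg D d u)) (ha : ∀ v w, P v → P w → P (v + w)) : P w := by
  induction w using ind with
  | h0 => exact h0
  | ha v w hv hw => exact ha v w hv hw
  | hs d u =>
    induction u using g.induction with
    | h0 => rw [map_zero]; exact h0
    | h p u hu => exact hs d p u hu
    | hadd u v hu hv => rw [map_add]; exact ha _ _ hu hv

variable {j} (hj : ∀ u : M, D.e 0 j • u = u)

/-- the grading of the affinisation, as a homomorphism -/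
noncomputable def rhoR (g : Grd D M) (_hj : ∀ u : M, D.e 0 j • u = u) :
    Aff D M →ₗ[KLRAlg D] Lau D (Aff D M) :=
  ofGens (rhoK j g)
    (fun l i w => by
      induction w using ind_hm g with
      | h0 => simp
      | ha v w hv hw => rw [smul_add, map_add, map_add, smul_add, hv, hw]
      | hs k p u hu => rw [e_sg, rhoK_sg j (hu.e l i), rhoK_sg j hu, Lau.e_sg, e_sg])
    (fun l w => by
      induction w using ind_hm g with
      | h0 => simp
      | ha v w hv hw => rw [smul_add, map_add, map_add, smul_add, hv, hw]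
      | hs k p u hu =>
        have hE : g.Hm p (D.E l • u) := by
          rw [Datum.E, Finset.sum_smul]
          have : ∀ S : Finset I, g.Hm p (∑ i ∈ S, D.e l i • u) := by
            intro S
            classical
            induction S using Finset.induction_on with
            | empty => simpa using Grd.Hm.zero
            | insert a S ha ih => rw [Finset.sum_insert ha]; exact (hu.e l a).add ih
          exact this _
        have hx : D.xdeg j = 2 := rfl
        rw [x_sg, map_add, rhoK_sg j (hu.x l), rhoK_sg j hE, rhoK_sg j hu, Lau.x_sg, x_sg,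
          map_add, hx, show p + 2 + 2 * (k : ℤ) = p + 2 * k + 2 by ring,
          show p + 2 * ((k + 1 : ℕ) : ℤ) = p + 2 * k + 2 by push_cast; ring])
    (fun l w => by
      induction w using ind_hm g with
      | h0 => simp
      | ha v w hv hw => rw [smul_add, map_add, map_add, smul_add, hv, hw]
      | hs k p u hu =>
        rw [t_sg, rhoK_sg j hu, Lau.t_sg, ← Lau.t_smul_sum, map_sum, map_sum]
        refine Finset.sum_congr rfl fun i _ => ?_
        rw [map_sum, map_sum]
        refine Finset.sum_congr rfl fun j' _ => ?_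
        rw [rhoK_sg j (hu.t l i j'), t_ee_sg, show p - D.A i j' + D.xdeg j * (k : ℤ) =
          p + D.xdeg j * k - D.A i j' by ring])

theorem rhoR_sg {g : Grd D M} {p : ℤ} {u : M} (h : g.Hm p u) (k : ℕ) :
    rhoR g hj (sg D k u) = Lau.sg D (p + D.xdeg j * k) (sg D k u) := rhoK_sg j h k

/-- the grading of the affinisation of a module with one strand of colour `j` -/
noncomputable def grd (g : Grd D M) (hj : ∀ u : M, D.e 0 j • u = u) : Grd D (Aff D M) where
  rho := rhoR g hj
  tot w := by
    induction w using ind_hm g with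
    | h0 => simp
    | ha v w hv hw => rw [map_add, map_add, hv, hw]
    | hs k p u hu => rw [rhoR_sg hj hu, Lau.tot_sg]
  dg w := by
    induction w using ind_hm g with
    | h0 => simp
    | ha v w hv hw => rw [map_add, map_add, map_add, hv, hw]
    | hs k p u hu => rw [rhoR_sg hj hu, Lau.map_sg, rhoR_sg hj hu, Lau.dg_sg]

theorem hm_sg {g : Grd D M} {p : ℤ} {u : M} (h : g.Hm p u) (k : ℕ) :
    (grd g hj).Hm (p + D.xdeg j * k) (sg D k u) := rhoR_sg hj h k

theorem homDeg_Z (g : Grd D M) : HomDeg (grd g hj) (grd g hj) (D.xdeg j) (Z D M) := by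
  intro w
  induction w using ind_hm g with
  | h0 => simp
  | ha v w hv hw => rw [map_add, map_add, map_add, map_add, map_add, hv, hw]
  | hs k p u hu =>
    have h1 : (grd g hj).rho (sg D k u) = Lau.sg D (p + D.xdeg j * k) (sg D k u) := hm_sg hj hu k
    have h2 : (grd g hj).rho (sg D (k + 1) u) =
        Lau.sg D (p + D.xdeg j * (k + 1 : ℕ)) (sg D (k + 1) u) := hm_sg hj hu (k + 1)
    rw [Z_sg, h1, h2, Lau.map_sg, Lau.shift_sg, Z_sg]
    congr 2
    push_cast
    ring

theorem homDeg_P (g : Grd D M) : HomDeg (grd g hj) g 0 (P D M) := by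
  intro w
  induction w using ind_hm g with
  | h0 => simp
  | ha v w hv hw => rw [map_add, map_add, map_add, map_add, map_add, hv, hw]
  | hs k p u hu =>
    have h1 : (grd g hj).rho (sg D k u) = Lau.sg D (p + D.xdeg j * k) (sg D k u) := hm_sg hj hu k
    rw [h1, Lau.map_sg, Lau.shift_sg]
    cases k with
    | zero =>
      have h2 : g.rho u = Lau.sg D p u := hu
      rw [P_sg_zero, h2]
      congr 2
      push_cast
      ring
    | succ k => rw [P_sg_succ, map_zero, map_zero]

end Aff

namespace SMod

theorem wtOf (X : SMod D) : WtOf D X.n X.M X.wt := by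
  intro ν u hν hu hne i
  rw [wdAt_zero_iff] at hu
  refine X.count_eq_wt ?_ i
  refine (chr_ne_zero_iff hν).2 ⟨u, ?_⟩
  rwa [hu]

end SMod

end Pool.Agent.KLR
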